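import Mathlib

/-!
Generic ideals of the square-free algebra: definitions.
-/

set_option autoImplicit false

namespace Pool.Agent.Q58.SF

open MvPolynomial

/-- The square-free monomials of degree `d` in `n` variables, given by their sets of variables. -/
abbrev Mon (n d : ℕ) : Type := {S : Finset (Fin n) // S.card = d}

/-- The form of degree `d` with the coefficient vector `c` in the basis of square-free monomials. -/
noncomputable def form (K : Type) [Field K] {n d : ℕ} (c : Mon n d → K) :
    MvPolynomial (Fin n) K :=
  ∑ S : Mon n d, C (c S) * ∏ j ∈ S.1, X j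

/-- The ideal of `K[x_1, ..., x_n]` generated by the squares `x_j ^ 2` and the forms `f_i` with the
coefficient vectors `c i`: the quotient by it is the quotient of the square-free algebra by the
ideal `(f_1, ..., f_r)`. -/
noncomputable def sfIdeal (K : Type) [Field K] {n r : ℕ} {d : Fin r → ℕ}
    (c : ∀ i, Mon n (d i) → K) : Ideal (MvPolynomial (Fin n) K) :=
  Ideal.span (Set.range (fun j : Fin n => (X j : MvPolynomial (Fin n) K) ^ 2) ∪
    Set.range fun i => form K (c i))

/-- The Hilbert function of the quotient of the square-free algebra by the ideal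
`(f_1, ..., f_r)`: the dimension of the component of degree `k`, the image of the space of the
homogeneous polynomials of degree `k`. -/
noncomputable def hilb (K : Type) [Field K] {n r : ℕ} {d : Fin r → ℕ}
    (c : ∀ i, Mon n (d i) → K) (k : ℕ) : ℕ :=
  Module.finrank K ((homogeneousSubmodule (Fin n) K k).map
    (Ideal.Quotient.mkₐ K (sfIdeal K c)).toLinearMap)

/-- `H` is the Hilbert function of the quotient of the square-free algebra by a generic ideal
generated in the degrees `d i`: this holds for all coefficient vectors in a nonempty Zariski open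
set (`K` is infinite). -/
def IsGenericHilb (K : Type) [Field K] (n : ℕ) {r : ℕ} (d : Fin r → ℕ) (H : ℕ → ℤ) : Prop :=
  ∃ Q : MvPolynomial (Σ i : Fin r, Mon n (d i)) K, Q ≠ 0 ∧
    ∀ c : ∀ i, Mon n (d i) → K, eval (fun p => c p.1 p.2) Q ≠ 0 → ∀ k, (hilb K c k : ℤ) = H k

/-- The series `(1 + t) ^ n * ∏ (1 - t ^ d i)`. -/
noncomputable def series (n : ℕ) {r : ℕ} (d : Fin r → ℕ) : Polynomial ℤ :=
  (1 + Polynomial.X) ^ n * ∏ i, (1 - Polynomial.X ^ d i)

open Classical in
/-- The coefficients of the series truncated at the first coefficient which is not positive. -/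
noncomputable def predicted (n : ℕ) {r : ℕ} (d : Fin r → ℕ) (k : ℕ) : ℤ :=
  if ∀ i ≤ k, 0 < (series n d).coeff i then (series n d).coeff k else 0

end Pool.Agent.Q58.SF
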