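import Pool.Agent.Q58.SF.Defs

/-!
The functional of degree `s` which vanishes on two generic linear forms in `2 s + 1` variables.
-/

set_option autoImplicit false

namespace Pool.Agent.Q58.SF

open MvPolynomial Finset

variable {K : Type} [Field K]

/-- exponent vector of a square-free monomial -/
noncomputable def ind {n : ℕ} (I : Finset (Fin n)) : Fin n →₀ ℕ := ∑ i ∈ I, Finsupp.single i 1

theorem ind_apply {n : ℕ} (I : Finset (Fin n)) (i : Fin n) :
    ind I i = if i ∈ I then 1 else 0 := by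
  unfold ind
  rw [Finsupp.finset_sum_apply]
  simp [Finsupp.single_apply]

theorem ind_le {n : ℕ} {S I : Finset (Fin n)} : ind S ≤ ind I ↔ S ⊆ I := by
  constructor
  · intro h i hi
    have := h i
    rw [ind_apply, ind_apply, if_pos hi] at this
    by_contra h2
    rw [if_neg h2] at this
    omega
  · intro h i
    rw [ind_apply, ind_apply]
    by_cases h1 : i ∈ S
    · rw [if_pos h1, if_pos (h h1)]
    · rw [if_neg h1]; omega

theorem ind_sub {n : ℕ} {S I : Finset (Fin n)} (h : S ⊆ I) : ind I - ind S = ind (I \ S) := by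
  ext i
  rw [Finsupp.tsub_apply, ind_apply, ind_apply, ind_apply]
  by_cases h1 : i ∈ S
  · simp [h1, h h1]
  · simp [h1]

theorem prod_X {n : ℕ} (S : Finset (Fin n)) :
    (∏ j ∈ S, X j : MvPolynomial (Fin n) K) = monomial (ind S) 1 := by
  unfold ind
  rw [monomial_sum_one]
  rfl

/-- coefficients of a product with a form -/
theorem coeff_mul_form {n d : ℕ} (c : Mon n d → K) (q : MvPolynomial (Fin n) K)
    (I : Finset (Fin n)) :
    coeff (ind I) (q * form K c) =
      ∑ S : Mon n d, if S.1 ⊆ I then c S * coeff (ind (I \ S.1)) q else 0 := by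
  unfold form
  rw [Finset.mul_sum, coeff_sum]
  refine Finset.sum_congr rfl fun S _ => ?_
  rw [prod_X, C_mul_monomial, mul_one, coeff_mul_monomial']
  by_cases h : S.1 ⊆ I
  · rw [if_pos (ind_le.2 h), if_pos h, ind_sub h, mul_comm]
  · rw [if_neg (fun h2 => h (ind_le.1 h2)), if_neg h]

/-- The functional. -/
noncomputable def Phi {n : ℕ} (s : ℕ) (γ : Finset (Fin n) → K) :
    MvPolynomial (Fin n) K →ₗ[K] K :=
  ∑ I ∈ powersetCard s univ, γ I • lcoeff K (ind I)

theorem Phi_apply {n : ℕ} (s : ℕ) (γ : Finset (Fin n) → K) (p : MvPolynomial (Fin n) K) :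
    Phi s γ p = ∑ I ∈ powersetCard s univ, γ I * coeff (ind I) p := by
  unfold Phi
  rw [LinearMap.sum_apply]
  rfl

theorem Phi_sq {n : ℕ} (s : ℕ) (γ : Finset (Fin n) → K) (q : MvPolynomial (Fin n) K)
    (j : Fin n) : Phi s γ (q * X j ^ 2) = 0 := by
  rw [Phi_apply]
  refine Finset.sum_eq_zero fun I _ => ?_
  rw [X_pow_eq_monomial, coeff_mul_monomial', if_neg, mul_zero]
  intro h
  have := h j
  rw [Finsupp.single_eq_same, ind_apply] at this
  split_ifs at this <;> omega

theorem Phi_big {n d s : ℕ} (h : s < d) (γ : Finset (Fin n) → K) (c : Mon n d → K)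
    (q : MvPolynomial (Fin n) K) : Phi s γ (q * form K c) = 0 := by
  rw [Phi_apply]
  refine Finset.sum_eq_zero fun I hI => ?_
  rw [coeff_mul_form, Finset.sum_eq_zero, mul_zero]
  intro S _
  rw [if_neg]
  intro h2
  have h3 := Finset.card_le_card h2
  rw [S.2, (mem_powersetCard.1 hI).2] at h3
  omega

/-- The singleton with one element as a square-free monomial. -/
def sing {n d : ℕ} (h : d = 1) (i : Fin n) : Mon n d := ⟨{i}, by rw [h]; rfl⟩

theorem sum_mon_one {n d : ℕ} (h : d = 1) (F : Mon n d → K) :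
    ∑ S : Mon n d, F S = ∑ i : Fin n, F (sing h i) := by
  symm
  refine Finset.sum_bij (fun i _ => sing h i) (fun _ _ => mem_univ _) ?_ ?_ fun _ _ => rfl
  · intro i _ j _ hij
    have := congrArg Subtype.val hij
    simpa [sing] using this
  · rintro ⟨S, hS⟩ _
    rw [h] at hS
    obtain ⟨i, rfl⟩ := Finset.card_eq_one.1 hS
    exact ⟨i, mem_univ _, rfl⟩

theorem sum_swap {n s : ℕ} (F : Finset (Fin n) → Fin n → K) :
    ∑ I ∈ powersetCard (s + 1) univ, ∑ i ∈ I, F I i =
      ∑ J ∈ powersetCard s (univ : Finset (Fin n)), ∑ i ∈ Jᶜ, F (insert i J) i := by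
  rw [Finset.sum_sigma', Finset.sum_sigma']
  refine Finset.sum_bij' (fun p _ => ⟨p.1.erase p.2, p.2⟩) (fun p _ => ⟨insert p.2 p.1, p.2⟩)
    ?_ ?_ ?_ ?_ ?_
  · rintro ⟨I, i⟩ h
    simp only [mem_sigma, mem_powersetCard, subset_univ, true_and] at h ⊢
    refine ⟨by rw [card_erase_of_mem h.2, h.1]; rfl, by simp⟩
  · rintro ⟨J, i⟩ h
    simp only [mem_sigma, mem_powersetCard, subset_univ, true_and, mem_compl] at h ⊢
    exact ⟨by rw [card_insert_of_notMem h.2, h.1], mem_insert_self _ _⟩
  · rintro ⟨I, i⟩ h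
    simp only [mem_sigma] at h
    simp [insert_erase h.2]
  · rintro ⟨J, i⟩ h
    simp only [mem_sigma, mem_compl] at h
    simp [erase_insert h.2]
  · rintro ⟨I, i⟩ h
    simp only [mem_sigma] at h
    simp [insert_erase h.2]

theorem Phi_one {n d s : ℕ} (h : d = 1) (γ : Finset (Fin n) → K) (c : Mon n d → K)
    (hγ : ∀ J : Finset (Fin n), J.card = s → ∑ i ∈ Jᶜ, γ (insert i J) * c (sing h i) = 0)
    (q : MvPolynomial (Fin n) K) : Phi (s + 1) γ (q * form K c) = 0 := by
  rw [Phi_apply]
  have h1 : ∀ I ∈ powersetCard (s + 1) (univ : Finset (Fin n)),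
      γ I * coeff (ind I) (q * form K c) =
        ∑ i ∈ I, γ I * c (sing h i) * coeff (ind (I.erase i)) q := by
    intro I _
    rw [coeff_mul_form, sum_mon_one h, Finset.mul_sum]
    rw [← Finset.sum_subset (Finset.subset_univ I)]
    · refine Finset.sum_congr rfl fun i hi => ?_
      rw [if_pos (show (sing h i).1 ⊆ I from by simpa [sing] using hi)]
      have : I \ (sing h i).1 = I.erase i := by simp [sing, Finset.sdiff_singleton_eq_erase]
      rw [this]
      ring
    · intro i _ hi
      rw [if_neg (show ¬ (sing h i).1 ⊆ I from by simpa [sing] using hi), mul_zero]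
  rw [Finset.sum_congr rfl h1, sum_swap]
  refine Finset.sum_eq_zero fun J hJ => ?_
  have h2 : ∀ i ∈ Jᶜ, γ (insert i J) * c (sing h i) * coeff (ind ((insert i J).erase i)) q =
      γ (insert i J) * c (sing h i) * coeff (ind J) q := by
    intro i hi
    rw [erase_insert (mem_compl.1 hi)]
  rw [Finset.sum_congr rfl h2, ← Finset.sum_mul, hγ J (mem_powersetCard.1 hJ).2, zero_mul]

theorem Phi_mon {n s : ℕ} (γ : Finset (Fin n) → K) {I : Finset (Fin n)} (hI : I.card = s) :
    Phi s γ (∏ j ∈ I, X j) = γ I := by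
  rw [Phi_apply, prod_X, Finset.sum_eq_single I]
  · rw [coeff_monomial, if_pos rfl, mul_one]
  · intro J _ hJ
    rw [coeff_monomial, if_neg, mul_zero]
    intro h
    apply hJ
    exact (ind_le.1 h.ge).antisymm (ind_le.1 h.le)
  · intro h
    exact absurd (mem_powersetCard.2 ⟨subset_univ _, hI⟩) h

end Pool.Agent.Q58.SF
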