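import Pool.Agent.Q58.SF.Fun

/-!
The coefficients of the Hankel determinant.
-/

set_option autoImplicit false

namespace Pool.Agent.Q58.SF

open MvPolynomial Finset

variable {K : Type} [Field K]

/-- the product of all differences in a set -/
noncomputable def vand {n : ℕ} (t : Fin n → K) (I : Finset (Fin n)) : K :=
  ∏ i ∈ I, ∏ j ∈ I.erase i, (t i - t j)

theorem vand_insert {n : ℕ} (t : Fin n → K) {J : Finset (Fin n)} {i : Fin n} (hi : i ∉ J) :
    vand t (insert i J) = vand t J * ((-1) ^ J.card * (∏ j ∈ J, (t i - t j)) ^ 2) := by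
  unfold vand
  rw [prod_insert hi, erase_insert hi]
  have h1 : ∀ j ∈ J, ∏ k ∈ (insert i J).erase j, (t j - t k) =
      (t j - t i) * ∏ k ∈ J.erase j, (t j - t k) := by
    intro j hj
    have hij : i ≠ j := fun h => hi (h ▸ hj)
    rw [erase_insert_of_ne hij, prod_insert]
    exact fun h => hi (mem_of_mem_erase h)
  rw [prod_congr rfl h1, prod_mul_distrib]
  have h2 : ∏ j ∈ J, (t j - t i) = (-1) ^ J.card * ∏ j ∈ J, (t i - t j) := by
    rw [← prod_const, ← prod_mul_distrib]
    exact prod_congr rfl fun j _ => by ring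
  rw [h2]
  ring

/-- the coefficients -/
noncomputable def gam {n : ℕ} (a t : Fin n → K) (I : Finset (Fin n)) : K :=
  (∏ i ∈ I, ((∏ k ∈ univ.erase i, (t i - t k))⁻¹ * (a i)⁻¹)) * vand t I

theorem gam_ne {n : ℕ} {a t : Fin n → K} (ha : ∀ i, a i ≠ 0) (ht : Function.Injective t)
    (I : Finset (Fin n)) : gam a t I ≠ 0 := by
  unfold gam vand
  refine mul_ne_zero (prod_ne_zero_iff.2 fun i _ => mul_ne_zero (inv_ne_zero
    (prod_ne_zero_iff.2 fun k hk => sub_ne_zero.2 fun h => ?_)) (inv_ne_zero (ha i)))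
    (prod_ne_zero_iff.2 fun i _ => prod_ne_zero_iff.2 fun k hk => sub_ne_zero.2 fun h => ?_)
  · exact (mem_erase.1 hk).1 (ht h).symm
  · exact (mem_erase.1 hk).1 (ht h).symm

theorem gam_insert {n : ℕ} {a t : Fin n → K} (ha : ∀ i, a i ≠ 0) (ht : Function.Injective t)
    {J : Finset (Fin n)} {i : Fin n} (hi : i ∈ Jᶜ) :
    gam a t (insert i J) * a i = gam a t J * (-1) ^ J.card *
      ((∏ j ∈ J, (t i - t j)) / ∏ k ∈ Jᶜ.erase i, (t i - t k)) := by
  have hi' : i ∉ J := mem_compl.1 hi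
  have h1 : ∏ k ∈ univ.erase i, (t i - t k) =
      (∏ j ∈ J, (t i - t j)) * ∏ k ∈ Jᶜ.erase i, (t i - t k) := by
    rw [← prod_union]
    · refine prod_congr ?_ fun _ _ => rfl
      ext k
      simp only [mem_erase, mem_univ, and_true, mem_union, mem_compl]
      constructor
      · intro h
        by_cases hk : k ∈ J
        · exact Or.inl hk
        · exact Or.inr ⟨h, hk⟩
      · rintro (h | h)
        · exact fun h2 => hi' (h2 ▸ h)
        · exact h.1
    · rw [disjoint_left]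
      intro k hk hk2
      exact mem_compl.1 (mem_of_mem_erase hk2) hk
  have hA : ∏ j ∈ J, (t i - t j) ≠ 0 :=
    prod_ne_zero_iff.2 fun j hj => sub_ne_zero.2 fun h => hi' (ht h ▸ hj)
  have hB : ∏ k ∈ Jᶜ.erase i, (t i - t k) ≠ 0 :=
    prod_ne_zero_iff.2 fun k hk => sub_ne_zero.2 fun h => (mem_erase.1 hk).1 (ht h).symm
  unfold gam
  rw [prod_insert hi', vand_insert t hi', h1]
  have := ha i
  field_simp

theorem lagrange_zero {n : ℕ} {t : Fin n → K} (ht : Function.Injective t)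
    {J : Finset (Fin n)} {P : Polynomial K} (hP : P.natDegree + 1 < (Jᶜ).card) :
    ∑ i ∈ Jᶜ, P.eval (t i) / ∏ k ∈ Jᶜ.erase i, (t i - t k) = 0 := by
  have h1 : P.degree < ((Jᶜ).card : WithBot ℕ) :=
    lt_of_le_of_lt Polynomial.degree_le_natDegree (by exact_mod_cast (by omega))
  rw [← Lagrange.coeff_eq_sum (s := Jᶜ) (v := t) ht.injOn h1]
  exact Polynomial.coeff_eq_zero_of_natDegree_lt (by omega)

theorem gam_sum {n s : ℕ} {a t : Fin n → K} (ha : ∀ i, a i ≠ 0) (ht : Function.Injective t)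
    (hn : n = 2 * (s + 1) + 1) {J : Finset (Fin n)} (hJ : J.card = s) :
    ∑ i ∈ Jᶜ, gam a t (insert i J) * a i = 0 ∧
      ∑ i ∈ Jᶜ, gam a t (insert i J) * (a i * t i) = 0 := by
  have hc : (Jᶜ).card = s + 3 := by
    rw [card_compl, Fintype.card_fin, hJ]; omega
  have hd : (∏ j ∈ J, (Polynomial.X - Polynomial.C (t j))).natDegree = s := by
    rw [Polynomial.natDegree_prod_of_monic _ _ fun j _ => Polynomial.monic_X_sub_C _]
    simp [hJ]
  have h1 : ∀ i ∈ Jᶜ, gam a t (insert i J) * a i = gam a t J * (-1) ^ J.card *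
      ((∏ j ∈ J, (Polynomial.X - Polynomial.C (t j))).eval (t i) /
        ∏ k ∈ Jᶜ.erase i, (t i - t k)) := by
    intro i hi
    rw [gam_insert ha ht hi, Polynomial.eval_prod]
    simp
  constructor
  · rw [sum_congr rfl h1, ← mul_sum, lagrange_zero ht (by rw [hd, hc]; omega), mul_zero]
  · have h2 : ∀ i ∈ Jᶜ, gam a t (insert i J) * (a i * t i) = gam a t J * (-1) ^ J.card *
        ((Polynomial.X * ∏ j ∈ J, (Polynomial.X - Polynomial.C (t j))).eval (t i) /
          ∏ k ∈ Jᶜ.erase i, (t i - t k)) := by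
      intro i hi
      rw [← mul_assoc, h1 i hi, Polynomial.eval_mul, Polynomial.eval_X]
      ring
    rw [sum_congr rfl h2, ← mul_sum, lagrange_zero ht, mul_zero]
    refine lt_of_le_of_lt (Nat.add_le_add_right Polynomial.natDegree_mul_le 1) ?_
    rw [hd, hc, Polynomial.natDegree_X]
    omega

end Pool.Agent.Q58.SF
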