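import Pool.Agent.Q58.SF.Gam

/-!
The functional for two arbitrary linear forms, as a limit.
-/

set_option autoImplicit false

namespace Pool.Agent.Q58.SF

open Finset

theorem exists_gamma {K : Type} [Field K] {n s : ℕ} (hn : n = 2 * (s + 1) + 1)
    (a b : Fin n → K) :
    ∃ γ : Finset (Fin n) → K, (∃ I : Finset (Fin n), I.card = s + 1 ∧ γ I ≠ 0) ∧
      ∀ J : Finset (Fin n), J.card = s →
        ∑ i ∈ Jᶜ, γ (insert i J) * a i = 0 ∧ ∑ i ∈ Jᶜ, γ (insert i J) * b i = 0 := by
  classical
  let R := Polynomial K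
  let F := FractionRing R
  let A : Fin n → R := fun i => Polynomial.C (a i) + Polynomial.X
  let B : Fin n → R := fun i => Polynomial.C (b i) + Polynomial.X ^ ((i : ℕ) + 2)
  have hinj : Function.Injective (algebraMap R F) := IsFractionRing.injective R F
  have hAd : ∀ i, (A i).natDegree = 1 := fun i => by
    show (Polynomial.C (a i) + Polynomial.X : Polynomial K).natDegree = 1
    rw [add_comm]
    exact Polynomial.natDegree_X_add_C _
  have hA : ∀ i, A i ≠ 0 := fun i h => by
    have := hAd i
    rw [h, Polynomial.natDegree_zero] at this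
    omega
  have hA0 : ∀ i, Polynomial.eval 0 (A i) = a i := fun i => by
    show Polynomial.eval 0 (Polynomial.C (a i) + Polynomial.X) = a i
    rw [Polynomial.eval_add, Polynomial.eval_C, Polynomial.eval_X, add_zero]
  have hB0 : ∀ i, Polynomial.eval 0 (B i) = b i := fun i => by
    show Polynomial.eval 0 (Polynomial.C (b i) + Polynomial.X ^ ((i : ℕ) + 2)) = b i
    rw [Polynomial.eval_add, Polynomial.eval_C, Polynomial.eval_pow, Polynomial.eval_X,
      zero_pow (by omega), add_zero]
  have hBd : ∀ i, (B i).natDegree = (i : ℕ) + 2 := fun i => by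
    show (Polynomial.C (b i) + Polynomial.X ^ ((i : ℕ) + 2) : Polynomial K).natDegree = _
    rw [add_comm]
    exact Polynomial.natDegree_X_pow_add_C
  have hB : ∀ i, B i ≠ 0 := fun i h => by
    have := hBd i
    rw [h, Polynomial.natDegree_zero] at this
    omega
  have hcross : ∀ i j : Fin n, A j * B i = A i * B j → i = j := by
    intro i j h
    have h1 := congrArg Polynomial.natDegree h
    rw [Polynomial.natDegree_mul (hA j) (hB i), Polynomial.natDegree_mul (hA i) (hB j),
      hAd, hAd, hBd, hBd] at h1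
    exact Fin.ext (by omega)
  let a' : Fin n → F := fun i => algebraMap R F (A i)
  let t : Fin n → F := fun i => algebraMap R F (B i) / algebraMap R F (A i)
  have ha' : ∀ i, a' i ≠ 0 := fun i h => hA i (hinj (by rw [map_zero]; exact h))
  have hat : ∀ i, a' i * t i = algebraMap R F (B i) := fun i => by
    show algebraMap R F (A i) * (algebraMap R F (B i) / algebraMap R F (A i)) = _
    rw [mul_div_cancel₀]
    exact ha' i
  have ht : Function.Injective t := by
    intro i j h
    apply hcross
    apply hinj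
    rw [map_mul, map_mul]
    have h1 : algebraMap R F (B i) / algebraMap R F (A i) =
      algebraMap R F (B j) / algebraMap R F (A j) := h
    rw [div_eq_div_iff (ha' i) (ha' j)] at h1
    rw [mul_comm, h1, mul_comm]
  obtain ⟨⟨β, hβ⟩, hint⟩ := IsLocalization.exist_integer_multiples_of_finset
    (nonZeroDivisors R) ((univ : Finset (Finset (Fin n))).image (gam a' t))
  have hβ0 : β ≠ 0 := nonZeroDivisors.ne_zero hβ
  have hp : ∀ I : Finset (Fin n), ∃ p : R, algebraMap R F p = algebraMap R F β * gam a' t I := by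
    intro I
    obtain ⟨p, hp⟩ := hint (gam a' t I) (mem_image_of_mem _ (mem_univ _))
    refine ⟨p, ?_⟩
    rw [hp]
    exact Algebra.smul_def _ _
  choose p hp using hp
  have hp0 : ∀ I, p I ≠ 0 := by
    intro I h
    have := hp I
    rw [h, map_zero] at this
    exact mul_ne_zero (fun h2 => hβ0 (hinj (by rw [map_zero]; exact h2)))
      (gam_ne ha' ht I) this.symm
  have heq : ∀ J : Finset (Fin n), J.card = s →
      ∑ i ∈ Jᶜ, p (insert i J) * A i = 0 ∧ ∑ i ∈ Jᶜ, p (insert i J) * B i = 0 := by
    intro J hJ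
    obtain ⟨h1, h2⟩ := gam_sum ha' ht hn hJ
    constructor
    · apply hinj
      rw [map_sum, map_zero]
      have : ∀ i ∈ Jᶜ, algebraMap R F (p (insert i J) * A i) =
          algebraMap R F β * (gam a' t (insert i J) * a' i) := by
        intro i _
        rw [map_mul, hp, mul_assoc]
      rw [sum_congr rfl this, ← mul_sum, h1, mul_zero]
    · apply hinj
      rw [map_sum, map_zero]
      have : ∀ i ∈ Jᶜ, algebraMap R F (p (insert i J) * B i) =
          algebraMap R F β * (gam a' t (insert i J) * (a' i * t i)) := by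
        intro i _
        rw [map_mul, hp, mul_assoc, hat]
      rw [sum_congr rfl this, ← mul_sum, h2, mul_zero]
  -- the set of the sets of the right size is nonempty
  obtain ⟨I0, -, hI0⟩ := exists_subset_card_eq (s := (univ : Finset (Fin n))) (n := s + 1)
    (by rw [card_univ, Fintype.card_fin]; omega)
  have hex : ∃ k : ℕ, ¬ ∀ I : Finset (Fin n), I.card = s + 1 → Polynomial.X ^ (k + 1) ∣ p I := by
    refine ⟨(p I0).natDegree, fun h => ?_⟩
    have h1 := Polynomial.natDegree_le_of_dvd (h I0 hI0) (hp0 I0)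
    rw [Polynomial.natDegree_X_pow] at h1
    omega
  obtain ⟨k, hk, hmin⟩ : ∃ k : ℕ,
      (¬ ∀ I : Finset (Fin n), I.card = s + 1 → Polynomial.X ^ (k + 1) ∣ p I) ∧
      ∀ I : Finset (Fin n), I.card = s + 1 → Polynomial.X ^ k ∣ p I := by
    refine ⟨Nat.find hex, Nat.find_spec hex, ?_⟩
    rcases Nat.eq_zero_or_pos (Nat.find hex) with h | h
    · rw [h]
      intro I _
      rw [pow_zero]
      exact one_dvd _
    · have h1 := Nat.find_min hex (m := Nat.find hex - 1) (by omega)
      rw [not_not] at h1
      rwa [Nat.sub_add_cancel h] at h1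
  have hq : ∀ I : Finset (Fin n), ∃ q : R, I.card = s + 1 → p I = Polynomial.X ^ k * q := by
    intro I
    by_cases h : I.card = s + 1
    · obtain ⟨q, hq⟩ := hmin I h
      exact ⟨q, fun _ => hq⟩
    · exact ⟨0, fun h2 => absurd h2 h⟩
  choose q hq using hq
  have hXk : (Polynomial.X ^ k : R) ≠ 0 := pow_ne_zero _ Polynomial.X_ne_zero
  refine ⟨fun I => (q I).eval 0, ?_, ?_⟩
  · push Not at hk
    obtain ⟨I, hI, h⟩ := hk
    refine ⟨I, hI, fun h0 => h ?_⟩
    rw [hq I hI, pow_succ]
    refine mul_dvd_mul_left _ (Polynomial.X_dvd_iff.2 ?_)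
    rw [Polynomial.coeff_zero_eq_eval_zero]
    exact h0
  · intro J hJ
    obtain ⟨h1, h2⟩ := heq J hJ
    have hc : ∀ i ∈ Jᶜ, (insert i J).card = s + 1 := fun i hi => by
      rw [card_insert_of_notMem (mem_compl.1 hi), hJ]
    constructor
    · have h3 : ∑ i ∈ Jᶜ, q (insert i J) * A i = 0 := by
        have : Polynomial.X ^ k * ∑ i ∈ Jᶜ, q (insert i J) * A i = 0 := by
          rw [mul_sum, ← h1]
          exact sum_congr rfl fun i hi => by rw [hq _ (hc i hi), mul_assoc]
        exact (mul_eq_zero.1 this).resolve_left hXk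
      have h4 := congrArg (Polynomial.eval 0) h3
      rw [Polynomial.eval_finsetSum, Polynomial.eval_zero] at h4
      refine Eq.trans (sum_congr rfl fun i _ => ?_) h4
      rw [Polynomial.eval_mul, hA0]
    · have h3 : ∑ i ∈ Jᶜ, q (insert i J) * B i = 0 := by
        have : Polynomial.X ^ k * ∑ i ∈ Jᶜ, q (insert i J) * B i = 0 := by
          rw [mul_sum, ← h2]
          exact sum_congr rfl fun i hi => by rw [hq _ (hc i hi), mul_assoc]
        exact (mul_eq_zero.1 this).resolve_left hXk
      have h4 := congrArg (Polynomial.eval 0) h3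
      rw [Polynomial.eval_finsetSum, Polynomial.eval_zero] at h4
      refine Eq.trans (sum_congr rfl fun i _ => ?_) h4
      rw [Polynomial.eval_mul, hB0]

end Pool.Agent.Q58.SF
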