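import Pool.Agent.Q58.SF.Lim

/-!
The Hilbert function in degree `s` is positive, and the predicted value is zero.
-/

set_option autoImplicit false

namespace Pool.Agent.Q58.SF

open MvPolynomial Finset

theorem finite_homog (K : Type) [Field K] (n k : ℕ) :
    Module.Finite K (homogeneousSubmodule (Fin n) K k) := by
  have h1 : homogeneousSubmodule (Fin n) K k ≤ restrictTotalDegree (Fin n) K k := by
    intro p hp
    rw [mem_restrictTotalDegree]
    exact (mem_homogeneousSubmodule k p).1 hp |>.totalDegree_le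
  exact Submodule.finiteDimensional_of_le h1

theorem hilb_pos' {K : Type} [Field K] {n s r : ℕ} {d : Fin (r + 2) → ℕ}
    (hn : n = 2 * (s + 1) + 1) (h0 : d 0 = 1)
    (h1 : d 1 = 1) (hd : ∀ i, i ≠ 0 → i ≠ 1 → s + 1 < d i)
    (c : ∀ i, Mon n (d i) → K) : 0 < hilb K c (s + 1) := by
  obtain ⟨γ, ⟨I, hI, hγ⟩, h⟩ := exists_gamma (K := K) hn (fun i => c 0 (sing h0 i))
    (fun i => c 1 (sing h1 i))
  have hJ : ∀ p ∈ sfIdeal K c, ∀ q, Phi (s + 1) γ (q * p) = 0 := by
    intro p hp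
    unfold sfIdeal at hp
    induction hp using Submodule.span_induction with
    | mem x hx =>
      intro q
      rcases hx with ⟨j, rfl⟩ | ⟨i, rfl⟩
      · exact Phi_sq (s + 1) γ q j
      · by_cases hi0 : i = 0
        · subst hi0
          exact Phi_one h0 γ (c 0) (fun J hJ => (h J hJ).1) q
        · by_cases hi1 : i = 1
          · subst hi1
            exact Phi_one h1 γ (c 1) (fun J hJ => (h J hJ).2) q
          · exact Phi_big (hd i hi0 hi1) γ (c i) q
    | zero => intro q; rw [mul_zero, map_zero]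
    | add x y _ _ hx hy => intro q; rw [mul_add, map_add, hx, hy, add_zero]
    | smul a x _ hx => intro q; rw [smul_eq_mul, ← mul_assoc]; exact hx _
  have hx : (∏ j ∈ I, X j : MvPolynomial (Fin n) K) ∉ sfIdeal K c := by
    intro hx
    have := hJ _ hx 1
    rw [one_mul, Phi_mon γ hI] at this
    exact hγ this
  have hh : (∏ j ∈ I, X j : MvPolynomial (Fin n) K) ∈
      homogeneousSubmodule (Fin n) K (s + 1) := by
    rw [mem_homogeneousSubmodule, ← hI]
    have := IsHomogeneous.prod I (fun j => (X j : MvPolynomial (Fin n) K)) (fun _ => 1)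
      fun j _ => isHomogeneous_X K j
    rwa [sum_const, smul_eq_mul, mul_one] at this
  unfold hilb
  have hfin := finite_homog K n (s + 1)
  rw [Module.finrank_pos_iff_exists_ne_zero]
  refine ⟨⟨_, Submodule.mem_map_of_mem hh⟩, fun h0 => hx ?_⟩
  have h2 := congrArg Subtype.val h0
  exact Ideal.Quotient.eq_zero_iff_mem.1 h2

theorem prod_big {r s : ℕ} (e : Fin r → ℕ) (he : ∀ i, s < e i) :
    ∃ R : Polynomial ℤ, ∏ i, (1 - Polynomial.X ^ e i) = 1 + Polynomial.X ^ (s + 1) * R := by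
  refine Finset.prod_induction _
    (fun f : Polynomial ℤ => ∃ R : Polynomial ℤ, f = 1 + Polynomial.X ^ (s + 1) * R) ?_ ?_ ?_
  · rintro f g ⟨R, rfl⟩ ⟨R', rfl⟩
    exact ⟨R + R' + Polynomial.X ^ (s + 1) * R * R', by ring⟩
  · exact ⟨0, by ring⟩
  · intro i _
    obtain ⟨k, hk⟩ := Nat.exists_eq_add_of_le (he i)
    refine ⟨- Polynomial.X ^ k, ?_⟩
    rw [hk, Nat.succ_eq_add_one, pow_add]
    ring

theorem choose_le {m : ℕ} : ((2 * (m + 3) + 1).choose (m + 3) : ℤ) -
    2 * (2 * (m + 3) + 1).choose (m + 2) + (2 * (m + 3) + 1).choose (m + 1) ≤ 0 := by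
  have h1 : (2 * (m + 3) + 1).choose (m + 3) * (m + 3) =
      (2 * (m + 3) + 1).choose (m + 2) * (m + 5) := by
    have := Nat.choose_succ_right_eq (2 * (m + 3) + 1) (m + 2)
    rw [this]
    congr 1
    omega
  have h2 : (2 * (m + 3) + 1).choose (m + 2) * (m + 2) =
      (2 * (m + 3) + 1).choose (m + 1) * (m + 6) := by
    have := Nat.choose_succ_right_eq (2 * (m + 3) + 1) (m + 1)
    rw [this]
    congr 1
    omega
  zify at h1 h2
  set A : ℤ := ((2 * (m + 3) + 1).choose (m + 3) : ℤ)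
  set B : ℤ := ((2 * (m + 3) + 1).choose (m + 2) : ℤ)
  set D : ℤ := ((2 * (m + 3) + 1).choose (m + 1) : ℤ)
  have hB : 0 ≤ B := by positivity
  have hm : (0 : ℤ) ≤ m := by positivity
  have h3 : (A - 2 * B + D) * ((m + 3) * (m + 6)) = - (2 * m * B) := by
    linear_combination (m + 6 : ℤ) * h1 - (m + 3 : ℤ) * h2
  by_contra h
  push Not at h
  have h4 : 0 < (A - 2 * B + D) * ((m + 3) * (m + 6)) := by positivity
  have h5 : 0 ≤ 2 * m * B := by positivity
  linarith

theorem series_coeff {s r : ℕ} {d : Fin (r + 2) → ℕ} (hs : 3 ≤ s) (h0 : d 0 = 1)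
    (h1 : d 1 = 1) (hd : ∀ i, i ≠ 0 → i ≠ 1 → s < d i) :
    (series (2 * s + 1) d).coeff s ≤ 0 := by
  obtain ⟨m, rfl⟩ : ∃ m, s = m + 3 := ⟨s - 3, by omega⟩
  obtain ⟨R, hR⟩ := prod_big (s := m + 3) (fun i : Fin r => d i.succ.succ) fun i =>
    hd _ (Fin.succ_ne_zero _) (by
      rw [← Fin.succ_zero_eq_one]
      exact fun h => Fin.succ_ne_zero _ (Fin.succ_injective _ h))
  unfold series
  rw [Fin.prod_univ_succ, Fin.prod_univ_succ, hR, Fin.succ_zero_eq_one, h0, h1]
  have h2 : ((1 + Polynomial.X) ^ (2 * (m + 3) + 1) * ((1 - Polynomial.X ^ 1) *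
      ((1 - Polynomial.X ^ 1) * (1 + Polynomial.X ^ (m + 3 + 1) * R))) : Polynomial ℤ) =
      (1 + Polynomial.X) ^ (2 * (m + 3) + 1) -
      (1 + Polynomial.X) ^ (2 * (m + 3) + 1) * Polynomial.X -
      (1 + Polynomial.X) ^ (2 * (m + 3) + 1) * Polynomial.X +
      (1 + Polynomial.X) ^ (2 * (m + 3) + 1) * Polynomial.X * Polynomial.X +
      ((1 + Polynomial.X) ^ (2 * (m + 3) + 1) * (1 - Polynomial.X) ^ 2 * R) *
        Polynomial.X ^ (m + 3 + 1) := by
    ring
  rw [h2]
  simp only [Polynomial.coeff_add, Polynomial.coeff_sub, Polynomial.coeff_mul_X,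
    Polynomial.coeff_mul_X_pow', Polynomial.coeff_one_add_X_pow]
  rw [if_neg (by omega)]
  have := choose_le (m := m)
  linarith

end Pool.Agent.Q58.SF
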